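import Pool.Graph.R_seed8.Results.MP_7aef23_nt.LinearGrowth

/-!
Generating sets of the integers with prescribed elements of word length three, and sets without
given differences.
-/

open Pool.Agent.Results.MP_7aef23_nt.LinearGrowth

namespace Pool.Agent.Helper92.Mz

/-- `A(t)`: the number of elements of `A` that are at most `t`. -/
noncomputable def count (A : Set ℕ) (t : ℕ) : ℕ := {a : ℕ | a ∈ A ∧ a ≤ t}.ncard

/-- No two elements of `S` differ by an element of `W`. -/
def DiffFree (W : Finset ℕ) (S : Set ℕ) : Prop := ∀ w ∈ W, ∀ a ∈ S, a + w ∉ S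

open Classical in
theorem count_eq (A : Set ℕ) (t : ℕ) :
    count A t = ((Finset.range (t + 1)).filter (· ∈ A)).card := by
  unfold count
  rw [← Set.ncard_coe_finset]
  congr 1
  ext a
  simp only [Set.mem_ofPred_eq, Finset.coe_filter, Finset.mem_range]
  constructor
  · rintro ⟨h1, h2⟩
    exact ⟨by omega, h1⟩
  · rintro ⟨h1, h2⟩
    exact ⟨h2, by omega⟩

theorem isSumOf_add {A : Set ℕ} {k l : ℕ} {x y : ℤ} (hx : IsSumOf A k x) (hy : IsSumOf A l y) :
    IsSumOf A (k + l) (x + y) := by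
  obtain ⟨g, hg, hgs⟩ := hx
  obtain ⟨h, hh, hhs⟩ := hy
  refine ⟨Fin.append g h, fun i => ?_, ?_⟩
  · refine Fin.addCases (fun i => ?_) (fun i => ?_) i
    · rw [Fin.append_left]
      exact hg i
    · rw [Fin.append_right]
      exact hh i
  · rw [Fin.sum_univ_add]
    simp only [Fin.append_left, Fin.append_right]
    rw [hgs, hhs]

theorem isSumOf_neg {A : Set ℕ} {k : ℕ} {x : ℤ} (hx : IsSumOf A k x) : IsSumOf A k (-x) := by
  obtain ⟨g, hg, hgs⟩ := hx
  refine ⟨fun i => - g i, fun i => ?_, by rw [Finset.sum_neg_distrib, hgs]⟩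
  obtain ⟨a, ha, h | h⟩ := hg i
  · exact ⟨a, ha, Or.inr (by simp only [h])⟩
  · exact ⟨a, ha, Or.inl (by simp only [h, neg_neg])⟩

theorem isSumOf_one {A : Set ℕ} {x : ℤ} : IsSumOf A 1 x ↔ ∃ a ∈ A, x = a ∨ x = -(a : ℤ) := by
  rw [isSumOf_succ]
  simp only [isSumOf_zero]
  constructor
  · rintro ⟨a, ha, h | h⟩
    · exact ⟨a, ha, Or.inl (by omega)⟩
    · exact ⟨a, ha, Or.inr (by omega)⟩
  · rintro ⟨a, ha, h | h⟩
    · exact ⟨a, ha, Or.inl (by omega)⟩
    · exact ⟨a, ha, Or.inr (by omega)⟩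

theorem isSumOf_two {A : Set ℕ} {x : ℤ} : IsSumOf A 2 x ↔ ∃ a ∈ A, ∃ b ∈ A,
    x = a + b ∨ x = a - b ∨ x = -(a : ℤ) - b := by
  rw [isSumOf_succ]
  simp only [isSumOf_one]
  constructor
  · rintro ⟨a, ha, ⟨b, hb, h | h⟩ | ⟨b, hb, h | h⟩⟩
    · exact ⟨a, ha, b, hb, Or.inl (by omega)⟩
    · exact ⟨a, ha, b, hb, Or.inr (Or.inl (by omega))⟩
    · exact ⟨b, hb, a, ha, Or.inr (Or.inl (by omega))⟩
    · exact ⟨b, hb, a, ha, Or.inr (Or.inr (by omega))⟩
  · rintro ⟨a, ha, b, hb, h | h | h⟩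
    · exact ⟨a, ha, Or.inl ⟨b, hb, Or.inl (by omega)⟩⟩
    · exact ⟨a, ha, Or.inl ⟨b, hb, Or.inr (by omega)⟩⟩
    · exact ⟨a, ha, Or.inr ⟨b, hb, Or.inr (by omega)⟩⟩

/-! ### upper bounds -/

/-- Initial and final pieces of a representation. -/
theorem exists_geodesic {A : Set ℕ} {r : ℕ} {x : ℤ} (h : IsSumOf A r x) :
    ∃ P : ℕ → ℤ, ∀ i j, i ≤ j → j ≤ r → IsSumOf A (j - i) (P j - P i) ∧ P 0 = 0 ∧ P r = x := by
  obtain ⟨g, hg, hs⟩ := h
  let G : ℕ → ℤ := fun i => if h : i < r then g ⟨i, h⟩ else 0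
  refine ⟨fun j => ∑ i ∈ Finset.range j, G i, ?_⟩
  have hr : ∑ i ∈ Finset.range r, G i = x := by
    rw [Finset.sum_range, ← hs]
    refine Finset.sum_congr rfl fun i _ => ?_
    simp [G]
  have key : ∀ i k, i + k ≤ r → IsSumOf A k
      (∑ l ∈ Finset.range (i + k), G l - ∑ l ∈ Finset.range i, G l) := by
    intro i k hik
    refine ⟨fun l => G (i + l), fun l => ?_, ?_⟩
    · have hl : i + (l : ℕ) < r := by have := l.2; omega
      simp only [G, hl, dif_pos]
      exact hg _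
    · rw [Finset.sum_range_add, add_sub_cancel_left, Finset.sum_range (fun l => G (i + l))]
  intro i j hij hj
  refine ⟨?_, by simp, hr⟩
  have h1 := key i (j - i) (by omega)
  rwa [Nat.add_sub_cancel' hij] at h1

/-- If some integer has word length `r`, then the density of the generating set is at most
`1 / (r / 3 + 1)`. -/
theorem count_le {A : Set ℕ} {r : ℕ} {x : ℤ} (h : HasLength A r x) :
    ∃ C : ℕ, ∀ t : ℕ, (r / 3 + 1) * count A t ≤ t + C := by
  classical
  obtain ⟨h1, h2⟩ := h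
  obtain ⟨P, hP⟩ := exists_geodesic h1
  obtain ⟨B, hB⟩ : ∃ B : ℕ, ∀ m ∈ Finset.range (r / 3 + 1), |P (3 * m)| ≤ B := by
    refine ⟨∑ m ∈ Finset.range (r / 3 + 1), (P (3 * m)).natAbs, fun m hm => ?_⟩
    rw [← Int.natCast_natAbs]
    exact_mod_cast Finset.single_le_sum (f := fun m => (P (3 * m)).natAbs)
      (fun _ _ => Nat.zero_le _) hm
  refine ⟨2 * B + 1, fun t => ?_⟩
  rw [count_eq]
  set S := (Finset.range (t + 1)).filter (· ∈ A) with hS
  have hinj : Set.InjOn (fun p : ℕ × ℕ => (p.2 : ℤ) + P (3 * p.1))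
      ((Finset.range (r / 3 + 1) ×ˢ S : Finset (ℕ × ℕ)) : Set (ℕ × ℕ)) := by
    have key : ∀ m m' a a', m < m' → m' < r / 3 + 1 → a ∈ A → a' ∈ A →
        (a : ℤ) + P (3 * m) ≠ (a' : ℤ) + P (3 * m') := by
      intro m m' a a' hm hm' ha ha' heq
      have h3 : 3 * m' ≤ r := by omega
      obtain ⟨e1, e0, er⟩ := hP 0 (3 * m) (Nat.zero_le _) (by omega)
      obtain ⟨e2, -, -⟩ := hP (3 * m') r h3 le_rfl
      have e3 : IsSumOf A 2 (P (3 * m') - P (3 * m)) :=
        isSumOf_two.2 ⟨a, ha, a', ha', Or.inr (Or.inl (by omega))⟩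
      have e4 := isSumOf_add (isSumOf_add e1 e3) e2
      have e5 : P (3 * m) - P 0 + (P (3 * m') - P (3 * m)) + (P r - P (3 * m')) = x := by
        rw [e0, er]
        ring
      rw [e5] at e4
      exact h2 _ (by omega) e4
    rintro ⟨m, a⟩ hm ⟨m', a'⟩ hm' heq
    simp only [Finset.coe_product, Set.mem_prod, Finset.mem_coe, Finset.mem_range, hS,
      Finset.mem_filter] at hm hm'
    simp only at heq
    rcases lt_trichotomy m m' with h | h | h
    · exact absurd heq (key m m' a a' h hm'.1 hm.2.2 hm'.2.2)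
    · subst h
      have : (a : ℤ) = a' := by omega
      have : a = a' := by exact_mod_cast this
      rw [this]
    · exact absurd heq.symm (key m' m a' a h hm.1 hm'.2.2 hm.2.2)
  have hmaps : ∀ p ∈ Finset.range (r / 3 + 1) ×ˢ S,
      (fun p : ℕ × ℕ => (p.2 : ℤ) + P (3 * p.1)) p ∈ Finset.Icc (-(B : ℤ)) (t + B) := by
    rintro ⟨m, a⟩ hp
    simp only [Finset.mem_product, hS, Finset.mem_filter] at hp
    have h3 := abs_le.1 (hB m hp.1)
    have h4 := Finset.mem_range.1 hp.2.1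
    simp only [Finset.mem_Icc]
    constructor <;> omega
  have h3 := Finset.card_le_card_of_injOn _ hmaps hinj
  rw [Finset.card_product, Finset.card_range, Int.card_Icc] at h3
  have h4 : ((t : ℤ) + B + 1 - -(B : ℤ)).toNat = t + (2 * B + 1) := by omega
  rw [h4] at h3
  exact h3

/-- Elements of word length at least three are not differences of generators. -/
theorem diffFree_of {A : Set ℕ} {r : ℕ} (hr : 3 ≤ r) {W : Finset ℕ}
    (hA : ∀ w ∈ W, HasLength A r w) : DiffFree W A := by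
  intro w hw a ha haw
  refine (hA w hw).2 2 (by omega) (isSumOf_two.2 ⟨a + w, haw, a, ha, Or.inr (Or.inl ?_)⟩)
  push_cast
  ring

/-! ### the construction -/

/-- The sparse set of auxiliary generators. -/
def spr (W : Finset ℕ) (L : ℕ) : Set ℕ :=
  {n | ∃ x, 1 ≤ x ∧ x ∉ W ∧ (n = 4 ^ (x + L) ∨ n = 4 ^ (x + L) + x)}

/-- The generating set. -/
def gen (W : Finset ℕ) (L : ℕ) (S : Set ℕ) : Set ℕ :=
  {n | n ∈ S ∧ L ≤ n ∧ ∀ b ∈ spr W L, ∀ w ∈ W, n ≠ b + w ∧ n + w ≠ b} ∪ spr W L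

theorem spr_gap {L x y : ℕ} (hxy : x < y) : 4 ^ (x + L) + x + L < 4 ^ (y + L) := by
  have h1 : 4 ^ (x + L + 1) ≤ 4 ^ (y + L) := Nat.pow_le_pow_right (by norm_num) (by omega)
  have h2 : x + L < 4 ^ (x + L) := Nat.lt_pow_self (by norm_num)
  have h3 : 4 ^ (x + L + 1) = 4 * 4 ^ (x + L) := by ring
  omega

theorem spr_ge {W : Finset ℕ} {L n : ℕ} (h : n ∈ spr W L) : L < n := by
  obtain ⟨x, hx, -, h | h⟩ := h
  · have h2 : x + L < 4 ^ (x + L) := Nat.lt_pow_self (by norm_num)
    omega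
  · have h2 : x + L < 4 ^ (x + L) := Nat.lt_pow_self (by norm_num)
    omega

theorem spr_diff {W : Finset ℕ} {L : ℕ} (hL : ∀ w ∈ W, w < L) (hpos : ∀ w ∈ W, 0 < w) {a b w : ℕ}
    (ha : a ∈ spr W L) (hb : b ∈ spr W L) (hw : w ∈ W) : a + w ≠ b := by
  intro heq
  have hwL := hL w hw
  have hw0 := hpos w hw
  obtain ⟨x, hx, hxW, hax⟩ := ha
  obtain ⟨y, hy, hyW, hby⟩ := hb
  rcases lt_trichotomy x y with h | h | h
  · have := spr_gap (L := L) h
    omega
  · subst h
    have hxw : x ≠ w := fun h => hxW (h ▸ hw)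
    omega
  · have := spr_gap (L := L) h
    omega

theorem gen_fam {W : Finset ℕ} {L : ℕ} (hL : ∀ w ∈ W, w < L) (hL1 : 1 ≤ L)
    (hpos : ∀ w ∈ W, 0 < w) {S : Set ℕ} (hS : DiffFree W S) : gen W L S ∈ Fam 3 W := by
  have hge : ∀ n ∈ gen W L S, L ≤ n := by
    rintro n (h | h)
    · exact h.2.1
    · exact (spr_ge h).le
  have hdiff : ∀ w ∈ W, ∀ a ∈ gen W L S, a + w ∉ gen W L S := by
    intro w hw a ha haw
    rcases ha with ha | ha <;> rcases haw with haw | haw
    · exact hS w hw a ha.1 haw.1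
    · exact (ha.2.2 _ haw w hw).2 rfl
    · exact (haw.2.2 _ ha w hw).1 rfl
    · exact spr_diff hL hpos ha haw hw rfl
  -- positive integers outside of W
  have hpos2 : ∀ x : ℕ, 1 ≤ x → x ∉ W → IsSumOf (gen W L S) 2 x := by
    intro x hx hxW
    refine isSumOf_two.2 ⟨4 ^ (x + L) + x, Or.inr ⟨x, hx, hxW, Or.inr rfl⟩, 4 ^ (x + L),
      Or.inr ⟨x, hx, hxW, Or.inl rfl⟩, Or.inr (Or.inl ?_)⟩
    push_cast
    ring
  have hall2 : ∀ x : ℤ, x ≠ 0 → (∀ w ∈ W, x ≠ w ∧ x ≠ -(w : ℤ)) → IsSumOf (gen W L S) 2 x := by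
    intro x hx hxW
    rcases lt_or_gt_of_ne hx with h | h
    · have h1 := hpos2 x.natAbs (by omega) (fun hw => (hxW _ hw).2 (by omega))
      have h2 := isSumOf_neg h1
      have h3 : -(x.natAbs : ℤ) = x := by omega
      rwa [h3] at h2
    · have h1 := hpos2 x.natAbs (by omega) (fun hw => (hxW _ hw).1 (by omega))
      have h3 : (x.natAbs : ℤ) = x := by omega
      rwa [h3] at h1
  -- elements of W are not sums of at most two generators
  have hlow : ∀ w ∈ W, ∀ k, k < 3 → ¬ IsSumOf (gen W L S) k w := by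
    intro w hw k hk hsum
    have hwL := hL w hw
    have hw0 := hpos w hw
    have hk' : k = 0 ∨ k = 1 ∨ k = 2 := by omega
    rcases hk' with rfl | rfl | rfl
    · rw [isSumOf_zero] at hsum
      omega
    · obtain ⟨a, ha, h | h⟩ := isSumOf_one.1 hsum
      · have := hge a ha
        omega
      · omega
    · obtain ⟨a, ha, b, hb, h | h | h⟩ := isSumOf_two.1 hsum
      · have := hge a ha
        omega
      · refine hdiff w hw b hb ?_
        have h1 : b + w = a := by omega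
        rwa [h1]
      · omega
  -- elements of W are sums of three generators
  have hthree : ∀ w ∈ W, IsSumOf (gen W L S) 3 w := by
    intro w hw
    have hwL := hL w hw
    have hw0 := hpos w hw
    have hLW : L ∉ W := fun h => lt_irrefl _ (hL L h)
    have hmem : 4 ^ (L + L) ∈ gen W L S := Or.inr ⟨L, hL1, hLW, Or.inl rfl⟩
    have hbig : L + L < 4 ^ (L + L) := Nat.lt_pow_self (by norm_num)
    have h1 : IsSumOf (gen W L S) 2 ((w : ℤ) - (4 ^ (L + L) : ℕ)) := by
      refine hall2 _ (by omega) fun v hv => ?_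
      have hvL := hL v hv
      constructor <;> omega
    have h2 := isSumOf_add (isSumOf_one.2 ⟨_, hmem, Or.inl rfl⟩) h1
    have h3 : ((4 ^ (L + L) : ℕ) : ℤ) + ((w : ℤ) - (4 ^ (L + L) : ℕ)) = w := by ring
    rwa [h3] at h2
  refine ⟨fun h0 => ?_, fun x => ?_, fun x => ?_⟩
  · have := hge 0 h0
    omega
  · by_cases hx : x = 0
    · exact ⟨0, (isSumOf_zero _ _).2 hx⟩
    by_cases hxW : ∀ w ∈ W, x ≠ w ∧ x ≠ -(w : ℤ)
    · exact ⟨2, hall2 x hx hxW⟩
    · push Not at hxW
      obtain ⟨w, hw, h⟩ := hxW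
      by_cases hxw : x = w
      · exact ⟨3, hxw ▸ hthree w hw⟩
      · exact ⟨3, (h hxw) ▸ isSumOf_neg (hthree w hw)⟩
  · constructor
    · rintro ⟨h1, h2⟩
      by_contra hcon
      push Not at hcon
      by_cases hx : x = 0
      · exact h2 0 (by norm_num) ((isSumOf_zero _ _).2 hx)
      · exact h2 2 (by norm_num) (hall2 x hx hcon)
    · rintro ⟨w, hw, rfl | rfl⟩
      · exact ⟨hthree w hw, hlow w hw⟩
      · refine ⟨isSumOf_neg (hthree w hw), fun k hk h => hlow w hw k hk ?_⟩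
        have := isSumOf_neg h
        rwa [neg_neg] at this

/-! ### counting -/

theorem log_add_le (t L : ℕ) : Nat.log 2 (t + L) ≤ Nat.log 2 t + L := by
  rcases Nat.eq_zero_or_pos t with h | h
  · subst h
    simpa using Nat.log_le_self 2 L
  · have h1 : ∀ L : ℕ, Nat.log 2 (t * 2 ^ L) = Nat.log 2 t + L := by
      intro L
      induction L with
      | zero => simp
      | succ L ih =>
        rw [pow_succ, ← mul_assoc, Nat.log_mul_base (by norm_num) (by positivity), ih]
        ring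
    rw [← h1]
    apply Nat.log_mono_right
    have h2 : L + 1 ≤ 2 ^ L := Nat.lt_pow_self (by norm_num)
    nlinarith

open Classical in
/-- The auxiliary generators are sparse. -/
theorem spr_card (W : Finset ℕ) (L T : ℕ) :
    ((Finset.range (T + 1)).filter (· ∈ spr W L)).card ≤ 2 * (Nat.log 2 T + 1) := by
  have hsub : (Finset.range (T + 1)).filter (· ∈ spr W L) ⊆
      (Finset.range (Nat.log 2 T + 1) ×ˢ Finset.range 2).image
        (fun p : ℕ × ℕ => 4 ^ (p.1 + L) + p.2 * p.1) := by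
    intro n hn
    obtain ⟨hnT, x, hx, -, h⟩ := Finset.mem_filter.1 hn
    have hnT' := Finset.mem_range.1 hnT
    have h1 : 4 ^ (x + L) ≤ T := by
      rcases h with h | h <;> omega
    have h2 : 2 ^ x ≤ T := by
      refine le_trans ?_ h1
      calc 2 ^ x ≤ 2 ^ (2 * (x + L)) := Nat.pow_le_pow_right (by norm_num) (by omega)
        _ = 4 ^ (x + L) := by rw [pow_mul]; norm_num
    have h3 : x ≤ Nat.log 2 T := Nat.le_log_of_pow_le (by norm_num) h2
    rw [Finset.mem_image]
    rcases h with h | h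
    · exact ⟨(x, 0), by simp; omega, by simp [h]⟩
    · exact ⟨(x, 1), by simp; omega, by simp [h]⟩
  refine (Finset.card_le_card hsub).trans (Finset.card_image_le.trans ?_)
  rw [Finset.card_product, Finset.card_range, Finset.card_range]
  omega

theorem count_gen (W : Finset ℕ) (L : ℕ) (hL : ∀ w ∈ W, w < L) (S : Set ℕ) :
    ∃ C : ℕ, ∀ t : ℕ, count (gen W L S) t ≤ count S t + C * (Nat.log 2 t + 1) ∧
      count S t ≤ count (gen W L S) t + C * (Nat.log 2 t + 1) := by
  classical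
  refine ⟨L + 2 * (W.card * (2 * (L + 1))) + 2, fun t => ⟨?_, ?_⟩⟩
  · rw [count_eq, count_eq]
    have hsub : (Finset.range (t + 1)).filter (· ∈ gen W L S) ⊆
        (Finset.range (t + 1)).filter (· ∈ S) ∪ (Finset.range (t + 1)).filter (· ∈ spr W L) := by
      intro n hn
      obtain ⟨h1, h2⟩ := Finset.mem_filter.1 hn
      rcases h2 with h2 | h2
      · exact Finset.mem_union_left _ (Finset.mem_filter.2 ⟨h1, h2.1⟩)
      · exact Finset.mem_union_right _ (Finset.mem_filter.2 ⟨h1, h2⟩)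
    refine (Finset.card_le_card hsub).trans ((Finset.card_union_le _ _).trans ?_)
    have h1 := spr_card W L t
    have h2 : 2 * (Nat.log 2 t + 1) ≤
        (L + 2 * (W.card * (2 * (L + 1))) + 2) * (Nat.log 2 t + 1) :=
      Nat.mul_le_mul_right _ (by omega)
    omega
  · rw [count_eq, count_eq]
    set Bs := (Finset.range (t + L + 1)).filter (· ∈ spr W L) with hBs
    have hsub : (Finset.range (t + 1)).filter (· ∈ S) ⊆
        (Finset.range (t + 1)).filter (· ∈ gen W L S) ∪ (Finset.range L ∪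
          ((W ×ˢ Bs).image (fun p : ℕ × ℕ => p.2 + p.1) ∪
            (W ×ˢ Bs).image (fun p : ℕ × ℕ => p.2 - p.1))) := by
      intro n hn
      obtain ⟨h1, h2⟩ := Finset.mem_filter.1 hn
      have h1' := Finset.mem_range.1 h1
      by_cases hg : n ∈ gen W L S
      · exact Finset.mem_union_left _ (Finset.mem_filter.2 ⟨h1, hg⟩)
      refine Finset.mem_union_right _ ?_
      by_cases hLn : L ≤ n
      · have h3 : ¬ ∀ b ∈ spr W L, ∀ w ∈ W, n ≠ b + w ∧ n + w ≠ b := fun h =>
          hg (Or.inl ⟨h2, hLn, h⟩)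
        push Not at h3
        obtain ⟨b, hb, w, hw, h4⟩ := h3
        have hwL := hL w hw
        refine Finset.mem_union_right _ ?_
        by_cases h5 : n = b + w
        · refine Finset.mem_union_left _ (Finset.mem_image.2 ⟨(w, b), ?_, h5.symm⟩)
          exact Finset.mem_product.2 ⟨hw, Finset.mem_filter.2
            ⟨Finset.mem_range.2 (by omega), hb⟩⟩
        · have h6 := h4 h5
          refine Finset.mem_union_right _ (Finset.mem_image.2 ⟨(w, b), ?_, by simp only; omega⟩)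
          exact Finset.mem_product.2 ⟨hw, Finset.mem_filter.2
            ⟨Finset.mem_range.2 (by omega), hb⟩⟩
      · exact Finset.mem_union_left _ (Finset.mem_range.2 (by omega))
    have hBc : Bs.card ≤ 2 * (L + 1) * (Nat.log 2 t + 1) := by
      have h1 := spr_card W L (t + L)
      have h2 := log_add_le t L
      have h3 : Nat.log 2 t + L + 1 ≤ (L + 1) * (Nat.log 2 t + 1) := by nlinarith
      calc Bs.card ≤ 2 * (Nat.log 2 (t + L) + 1) := h1
        _ ≤ 2 * (Nat.log 2 t + L + 1) := by omega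
        _ ≤ 2 * ((L + 1) * (Nat.log 2 t + 1)) := Nat.mul_le_mul_left 2 h3
        _ = _ := by ring
    have hI : (W ×ˢ Bs).card ≤ W.card * (2 * (L + 1)) * (Nat.log 2 t + 1) := by
      rw [Finset.card_product, mul_assoc]
      exact Nat.mul_le_mul_left _ (by rw [mul_assoc] at hBc ⊢; exact hBc)
    have h1 : ((W ×ˢ Bs).image (fun p : ℕ × ℕ => p.2 + p.1)).card ≤ (W ×ˢ Bs).card :=
      Finset.card_image_le
    have h2 : ((W ×ˢ Bs).image (fun p : ℕ × ℕ => p.2 - p.1)).card ≤ (W ×ˢ Bs).card :=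
      Finset.card_image_le
    have h3 := Finset.card_le_card hsub
    have h4 := Finset.card_union_le ((Finset.range (t + 1)).filter (· ∈ gen W L S))
      (Finset.range L ∪ ((W ×ˢ Bs).image (fun p : ℕ × ℕ => p.2 + p.1) ∪
            (W ×ˢ Bs).image (fun p : ℕ × ℕ => p.2 - p.1)))
    have h5 := Finset.card_union_le (Finset.range L)
      ((W ×ˢ Bs).image (fun p : ℕ × ℕ => p.2 + p.1) ∪
            (W ×ˢ Bs).image (fun p : ℕ × ℕ => p.2 - p.1))
    have h6 := Finset.card_union_le ((W ×ˢ Bs).image (fun p : ℕ × ℕ => p.2 + p.1))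
            ((W ×ˢ Bs).image (fun p : ℕ × ℕ => p.2 - p.1))
    rw [Finset.card_range] at h5
    have h7 : L ≤ L * (Nat.log 2 t + 1) := Nat.le_mul_of_pos_right L (Nat.succ_pos _)
    have h8 : (L + 2 * (W.card * (2 * (L + 1))) + 2) * (Nat.log 2 t + 1) =
        L * (Nat.log 2 t + 1) + 2 * (W.card * (2 * (L + 1)) * (Nat.log 2 t + 1)) +
          2 * (Nat.log 2 t + 1) := by ring
    rw [h8]
    omega

/-- Every set without differences in `W` is, up to a logarithmic number of elements, a member of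
the family for word length three. -/
theorem exists_gen (W : Finset ℕ) (hpos : ∀ w ∈ W, 0 < w) {S : Set ℕ} (hS : DiffFree W S) :
    ∃ A ∈ Fam 3 W, ∃ C : ℕ, ∀ t : ℕ, count A t ≤ count S t + C * (Nat.log 2 t + 1) ∧
      count S t ≤ count A t + C * (Nat.log 2 t + 1) := by
  have hL : ∀ w ∈ W, w < W.sup id + 1 := fun w hw => Nat.lt_succ_of_le (Finset.le_sup (f := id) hw)
  exact ⟨gen W (W.sup id + 1) S, gen_fam hL (Nat.succ_pos _) hpos hS,
    count_gen W (W.sup id + 1) hL S⟩

theorem count_half (S : Set ℕ) (q t : ℕ) (hq : 0 < q) (hodd : ∀ n, n ∉ S → q ≤ n ∧ n - q ∈ S) :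
    t ≤ 2 * count S t := by
  classical
  rw [count_eq]
  have h1 : (Finset.range (t + 1)).card = ((Finset.range (t + 1)).filter (· ∈ S)).card +
      ((Finset.range (t + 1)).filter (fun n => ¬ n ∈ S)).card :=
    (Finset.card_filter_add_card_filter_not _).symm
  have h2 : ((Finset.range (t + 1)).filter (fun n => ¬ n ∈ S)).card ≤
      ((Finset.range (t + 1)).filter (· ∈ S)).card := by
    refine Finset.card_le_card_of_injOn (fun n => n - q) (fun n hn => ?_) ?_
    · obtain ⟨h3, h4⟩ := Finset.mem_filter.1 hn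
      have h5 := Finset.mem_range.1 h3
      have h6 : n - q < t + 1 := by omega
      exact Finset.mem_coe.2 (Finset.mem_filter.2 ⟨Finset.mem_range.2 h6, (hodd n h4).2⟩)
    · intro n hn m hm heq
      have h3 := (hodd n (Finset.mem_filter.1 hn).2).1
      have h4 := (hodd m (Finset.mem_filter.1 hm).2).1
      simp only at heq
      omega
  rw [Finset.card_range] at h1
  omega

/-- The numbers whose quotient by `2 ^ a` is even. -/
theorem count_even (a t : ℕ) : t ≤ 2 * count {n | n / 2 ^ a % 2 = 0} t := by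
  have hq : 0 < 2 ^ a := by positivity
  refine count_half _ (2 ^ a) t hq fun n hn => ?_
  have hn' : ¬ n / 2 ^ a % 2 = 0 := hn
  have h2 : 2 ^ a ≤ n := by
    by_contra hlt
    apply hn'
    rw [Nat.div_eq_of_lt (by omega)]
  refine ⟨h2, ?_⟩
  have h3 : n / 2 ^ a = (n - 2 ^ a) / 2 ^ a + 1 := by
    have h4 : n = n - 2 ^ a + 2 ^ a := by omega
    conv_lhs => rw [h4]
    rw [Nat.add_div_right _ hq]
  show (n - 2 ^ a) / 2 ^ a % 2 = 0
  omega

theorem diffFree_even (W : Finset ℕ) (a : ℕ) (hW : ∀ w ∈ W, ∃ m, w = 2 ^ a * (2 * m + 1)) :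
    DiffFree W {n | n / 2 ^ a % 2 = 0} := by
  intro w hw n hn hnw
  obtain ⟨m, rfl⟩ := hW w hw
  have h1 : (n + 2 ^ a * (2 * m + 1)) / 2 ^ a = n / 2 ^ a + (2 * m + 1) :=
    Nat.add_mul_div_left _ _ (by positivity)
  have h2 : n / 2 ^ a % 2 = 0 := hn
  have h3 : (n + 2 ^ a * (2 * m + 1)) / 2 ^ a % 2 = 0 := hnw
  rw [h1] at h3
  omega

end Pool.Agent.Helper92.Mz
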